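import Mathlib
import Pool.Agent.TH710.ND.LogK
import Pool.Agent.TH710.ND.Sp

/-!
MP_bc213e_ag, Q1: nonvanishing for the log canonical divisors of quasi-projective varieties given by
nested sums of high powers of linear forms.
-/

set_option autoImplicit false

namespace Pool.Agent.Results.MP_bc213e_ag.NestedNonvanishing

open Pool.Agent.W602.GT Pool.Agent.W603.GW Pool.Agent.W603.GX Pool.Agent.W603.GY
open Pool.Agent.TH710.ND (IsNested)

/-- Let `V` be an irreducible component of the quasi-projective variety `F_i = 0`, `Q_j ≠ 0`, the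
`F_i` and the (finitely many) `Q_j` being nested sums of high powers of linear forms (at each of at
most `H + 1` levels at most `s` summands, exponents at least `(n + 1) (H + 1) (2 s + 1) ^ 5`), and
let `(Y, D)` be a log smooth pair such that `Y` minus `D` is a resolution of `V`. Then `K_Y + D` is
pseudo-effective if and only if some positive multiple of it is effective. -/
theorem result {k : Type} [Field k] [IsAlgClosed k] [CharZero k] {n : ℕ} {ι κ : Type} [Finite κ]
    {F : ι → MvPolynomial (Fin (n + 1)) k} {Q : κ → MvPolynomial (Fin (n + 1)) k} {s N H : ℕ}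
    (hF : ∀ i, IsNested s N H (F i)) (hQ : ∀ j, IsNested s N H (Q j))
    (hN : (n + 1) * ((H + 1) * (2 * s + 1) ^ 5) ≤ N) {K : Type} [Field K]
    [Algebra k K] {w : ℕ} {y : Fin (n + 1) → K} (hy : SubVarQ F Q K w y)
    (hcomp : IsComponentQ F Q y) :
    Psef k K w (OffAny Q y) ↔ KodGe k K w (OffAny Q y) 0 :=
  Pool.Agent.TH710.ND.psef_iff_kod hF hQ (Pool.Agent.TH710.ND.bnd_le hN).1 hy hcomp

end Pool.Agent.Results.MP_bc213e_ag.NestedNonvanishing
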